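import Pool.Agent.W495.FM.DimMain

/-!
# Tate classes, semisimplicity and `B^i` on open varieties dominated by small abelian varieties

An abelian variety over the field with `p ^ a` elements is modelled by `RedAV` (Honda, Tate): a
finite product of CM types `(E i, Φ i)` with Weil numbers `π i ∈ E i` that satisfy the formula of
Shimura and Taniyama; its cohomology of degree `n` consists of the alternating `n`-forms on the Tate
module `Ω ⊗ H_1`, on which the Frobenius endomorphism acts by `π`.

`IsSmall Y`: the dimension of `Y` is at most four; or `Y` is (over an algebraic closure) isogenous to
the product of a power of a simple abelian variety of dimension at most five and of a supersingular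
abelian variety; or `Y` is a product of abelian varieties of dimension at most three, with a condition
on the Galois closures of their CM fields. The Newton polygon is arbitrary.

The index `i` is the dimension of the cycles: for a smooth variety `X` of dimension `g` the group
`H_(2 i)(X, ℚ_ℓ(i))` is `H^(2 (g - i))(X, ℚ_ℓ(g - i))`, and `CH_i(X) = CH^(g - i)(X)`.

* For all varieties `X` of the class `Spread` - it contains the varieties generated by small abelian
  varieties and all those for which this is known, and it is closed under open subvarieties, images
  under proper morphisms, unions of a closed and an open member, and motivic direct summands - the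
  cycle class maps are surjective onto the Galois invariants for all `i`, and the eigenvalue one of
  the Frobenius is semisimple.
* If `X` belongs to the class generated by small abelian varieties and `Z` is an arbitrary closed
  subvariety, then for the open subvariety `U = X ∖ Z` the cycle class maps are bijective in all
  dimensions `i ≥ dim Z` (for smooth `X`: in all codimensions at most the codimension of `Z`).
-/

namespace Pool.Agent.Results.MP_81632f_ag.DominatedBySmallAbelian

open Pool.Agent.W495.TA Pool.Agent.W495.FM

/-- Surjectivity and semisimplicity for the class `Spread`, and bijectivity on complements for cycles
of dimension at least that of the closed subvariety that is removed. -/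
theorem result (p : ℕ) [Fact p.Prime] (ν : PadicAlgCl p ≃+* ℂ) (Ω : Type) [Field Ω]
    [IsAlgClosed Ω] [CharZero Ω] (V : Type) (T : Homology Ω V) (hT : IsHomology T)
    (hW : HasWeights T) :
    (∀ X : V, Spread T (IsKnown p ν T) X → ∀ i, IsOnto T X i) ∧
      IsoAbove T (IsSmallAbelian p ν T) :=
  ⟨fun _ hX i => onto_known_spread hT hW hX i, isoAbove hT hW⟩

end Pool.Agent.Results.MP_81632f_ag.DominatedBySmallAbelian
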