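import Mathlib
import Pool.Agent.W515.OpenTate.Defs
import Pool.Agent.W515.OpenTate.Main

/-!
# Surjectivity of the cycle maps of open varieties implies semisimplicity of Frobenius

Let `k` be a finite field with `q` elements, `K = ℚ_ℓ`, and let
`c^i : CH^i(X) ⊗ ℚ_ℓ → H^{2i}(X̄, ℚ_ℓ(i))^{G_k}` be the cycle class map of a smooth variety `X` over `k`.

1. Fix `i`. Suppose that for `1 ≤ i' ≤ i` and every smooth affine variety `X` of dimension `2 i'`
every Frobenius invariant class in `H^{2i'}(X̄, ℚ_ℓ(i'))` vanishes on some dense open subvariety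
(this holds if `c^{i'}` is surjective for `X`). Then the eigenvalue `1` of Frobenius on
`H^{2i}(X̄, ℚ_ℓ(i))` is semisimple for ALL smooth varieties `X`.

2. If the hypothesis holds for all `i'`, then Frobenius is semisimple on `H^n(Ȳ, ℚ_ℓ)` for all smooth
projective `Y` and all `n`.

3. Surjectivity of all `c^i` for all smooth `X` is equivalent to: the generalised eigenspaces of the
eigenvalue `1` are spanned by cycle classes; and to surjectivity for smooth projective varieties
and for smooth affine varieties of dimension `2 i` in codimension `i`; and to surjectivity for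
smooth projective varieties together with the semisimplicity of Frobenius on their cohomology.

4. If all `c^i` are bijective (Q1), then the eigenvalue `1` is semisimple (Q2), the dimension of
`CH^i(X)` is the multiplicity of the eigenvalue `1` on `H^{2i}(X̄, ℚ_ℓ(i))`, and rational equivalence
agrees with numerical equivalence on smooth projective varieties.

So Q2 follows from Q1 (from its surjectivity half), and `B^i(X)` for all `X` and `i` is equivalent to Q1.
-/

namespace Pool.Agent.Results.MP_81632f_ag.SemisimplicityFromOpenTate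

open TensorProduct Pool.Agent.W515.OpenTate

theorem result (K : Type) [Field K] [CharZero K] (q : ℕ) (hq : q ≠ 0) (T : Theory K q) :
    (∀ i, (∀ i', 1 ≤ i' → i' ≤ i → T.GenericVanishing i') → ∀ X, T.SemisimpleAtOne X i) ∧
    ((∀ i, 1 ≤ i → T.GenericVanishing i) → T.ProjSemisimple) ∧
    List.TFAE [∀ X i, T.Surj X i, ∀ X i, T.SpannedByCycles X i, T.SurjProj ∧ T.SurjAffine,
      T.SurjProj ∧ T.ProjSemisimple] ∧
    ((∀ X i, T.Bij X i) →
      (∀ X i, T.SemisimpleAtOne X i ∧ Module.finrank ℚ (T.Z.CH X i) = T.order X i) ∧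
      ∀ Y, T.S.IsProj Y → ∀ i j, i + j = T.S.dim Y → ∀ z : T.Z.CH Y i, T.NumTrivial z j → z = 0) := by
  have hq' : (q : K) ≠ 0 := Nat.cast_ne_zero.2 hq
  have h1 : ∀ i, (∀ i', 1 ≤ i' → i' ≤ i → T.GenericVanishing i') → ∀ X, T.SemisimpleAtOne X i :=
    fun i hyp X => q2_of_semisimple T i (fun Y hY => ss_proj T hq' i
      (fun i' h1 h2 => (hyp_iff T i').2 (hyp i' h1 h2)) Y hY) X
  have h2 : (∀ i, 1 ≤ i → T.GenericVanishing i) → T.ProjSemisimple :=
    fun hyp Y hY n => semisimple T hq' (fun i' h1 => (hyp_iff T i').2 (hyp i' h1)) Y hY n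
  have hS : (∀ X i, T.Surj X i) → ∀ i, 1 ≤ i → T.GenericVanishing i :=
    fun h i hi => (hyp_iff T i).1 (hyp_of_surj T i hi fun X _ _ => h X i)
  have hrange : ∀ X i, T.Surj X i → T.SemisimpleAtOne X i → T.SpannedByCycles X i := by
    intro X i hs hss
    unfold Theory.SpannedByCycles
    rw [hss]
    exact le_antisymm hs (T.invariant X i)
  refine ⟨h1, h2, ?_, ?_⟩
  · tfae_have 1 → 2 := fun h X i =>
      hrange X i (h X i) (h1 i (fun i' hi' _ => hS h i' hi') X)
    tfae_have 2 → 1 := fun h X i x hx => by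
      have h3 : x ∈ (T.C.F X (2 * i)).maxGenEigenspace ((q : K) ^ i) := by
        rw [Module.End.mem_eigenspace_iff] at hx
        exact (Module.End.mem_maxGenEigenspace _ _ _).2 ⟨1, by simp [hx]⟩
      rw [h X i] at h3
      exact h3
    tfae_have 1 → 3 := fun h => ⟨fun Y _ i => h Y i, fun i _ X _ _ => h X i⟩
    tfae_have 3 → 4 := fun h => ⟨h.1, h2 fun i hi =>
      (hyp_iff T i).1 (hyp_of_surj T i hi (h.2 i hi))⟩
    tfae_have 4 → 1 := fun h X i => surj_of_proj T i
      (fun Y hY => ss_of_semisimple T (h.2 Y hY (2 * i)) _) (fun Y hY => h.1 Y hY i) X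
    tfae_finish
  · intro h
    have hsurj : ∀ X i, T.Surj X i := fun X i => (h X i).2
    have hss : ∀ X i, T.SemisimpleAtOne X i := fun X i =>
      h1 i (fun i' hi' _ => hS hsurj i' hi') X
    refine ⟨fun X i => ⟨hss X i, ?_⟩, ?_⟩
    · have h3 := hrange X i (hsurj X i) (hss X i)
      unfold Theory.SpannedByCycles at h3
      unfold Theory.order
      rw [← LinearMap.finrank_maxGenEigenspace_eq, h3]
      unfold Cycles.alg
      rw [LinearMap.finrank_range_of_inj (h X i).1, Module.finrank_baseChange]
    · intro Y hY i j hij z hz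
      have h3 := hom_num T hq' hY hij (hss Y j) (hsurj Y j) (1 ⊗ₜ z) hz
      have h4 : (1 : K) ⊗ₜ[ℚ] z = 0 := (h Y i).1 (by rw [h3, map_zero])
      have h5 := Module.Flat.tensorProduct_mk_injective (R := ℚ) (S := K) (M := T.Z.CH Y i)
      exact h5 (by rw [TensorProduct.mk_apply, h4, map_zero])

end Pool.Agent.Results.MP_81632f_ag.SemisimplicityFromOpenTate
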