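import Mathlib
import Pool.Agent.W534.FS6
import Pool.Agent.W534.FS9

/-!
# Tate classes on `X × X` for surfaces with simple transcendental Frobenius eigenvalues

Let `X` be a smooth projective surface over `F_q`, `q = p ^ a`, and `V = H²(X̄, Q̄_ℓ)`. By Poincaré
duality `V ⊗ V (2) ⊆ H⁴(X̄ × X̄)(2)` is the space of endomorphisms of `V`, the Frobenius acting by
`h ↦ F h F⁻¹`, so that the Tate classes are the endomorphisms which commute with `F`, and a cycle
acts as a correspondence.
-/

open Polynomial Module W534.FS

namespace Pool.Agent.Results.MP_81632f_ag.SurfaceSquares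

theorem result {p a : ℕ} (hp : p.Prime) (ha : 0 < a) {K V : Type*} [Field K] [CharZero K]
    [IsAlgClosed K] [AddCommGroup V] [Module K V] [Module.Finite K V] (S : SurfaceH2 p a K V)
    -- the Tate conjecture for divisors on `X`
    (hT : S.TateDivisors)
    -- `p_g ≤ 1` and (`q = p` or `X` ordinary); or the bound `a p_g` (`p_g` if `X` is ordinary) is
    -- at most two and there are two non-conjugate eigenvalues which are not Tate eigenvalues; or
    -- `b₂ ≤ ρ(X̄) + 3`; or `p_g = 1`, finite height `h` and `gcd (a, h) = 1`
    (hcond : (∃ g, S.Bound g ∧ (g ≤ 1 ∨ (g ≤ 2 ∧ ∃ β γ, S.F.HasEigenvalue β ∧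
      S.F.HasEigenvalue γ ∧ ¬ IsTate p a β ∧ ¬ IsTate p a γ ∧ minpoly ℤ β ≠ minpoly ℤ γ))) ∨
      finrank K V ≤ finrank K S.N + 3 ∨ (∃ h, S.Height h ∧ Nat.gcd a h = 1)) :
    -- the Frobenius is semisimple on `V`
    S.Semisimple ∧
    -- the eigenvalue one is semisimple on `V ⊗ V (2)`
    (∀ h : Module.End K V, (S.F * h - h * S.F) * S.F = S.F * (S.F * h - h * S.F) →
      h * S.F = S.F * h) ∧
    -- all Tate classes in `V ⊗ V (2)` are combinations of the classes of the graphs of the powers
    -- of the Frobenius and of products of divisors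
    (∀ h : Module.End K V, h * S.F = S.F * h → h ∈ S.Alg) := by
  classical
  have hs : ∀ α, ¬ IsTate p a α → S.mult α ≤ 1 := by
    rcases hcond with ⟨g, hg, hg12⟩ | hb | ⟨h, hH, hgcd⟩
    · have h1 : ∀ Z : Finset K, (∀ z ∈ Z, S.F.HasEigenvalue z ∧ ¬ IsTate p a z) →
          (∀ z ∈ Z, ∀ z' ∈ Z, minpoly ℤ z = minpoly ℤ z' → z = z') → ∑ z ∈ Z, S.mult z ≤ g :=
        fun Z hZ hd => S.sum_mult hp ha hg Z hZ hd
      intro α hα
      by_cases h0 : S.mult α = 0
      · omega
      have he := S.eigenvalue_of_mult (α := α) (by omega)
      rcases hg12 with hg1 | ⟨hg2, β, γ, hβ, hγ, hβT, hγT, hne⟩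
      · have := h1 {α} (by simp [he, hα]) (by simp)
        rw [Finset.sum_singleton] at this
        omega
      · have key : ∀ δ, S.F.HasEigenvalue δ → ¬ IsTate p a δ → minpoly ℤ α ≠ minpoly ℤ δ →
            S.mult α ≤ 1 := by
          intro δ hδ hδT hαδ
          have hne' : α ≠ δ := fun h => hαδ (by rw [h])
          have h4 := h1 {α, δ} (by
            intro z hz
            simp only [Finset.mem_insert, Finset.mem_singleton] at hz
            rcases hz with hz | hz
            · rw [hz]; exact ⟨he, hα⟩
            · rw [hz]; exact ⟨hδ, hδT⟩) (by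
            intro z hz z' hz' h
            simp only [Finset.mem_insert, Finset.mem_singleton] at hz hz'
            rcases hz with hz | hz
            · rcases hz' with hz' | hz'
              · rw [hz, hz']
              · rw [hz, hz'] at h; exact absurd h hαδ
            · rcases hz' with hz' | hz'
              · rw [hz, hz'] at h; exact absurd h.symm hαδ
              · rw [hz, hz'])
          rw [Finset.sum_pair hne'] at h4
          have := S.mult_pos hδ
          omega
        by_cases hαβ : minpoly ℤ α = minpoly ℤ β
        · exact key γ hγ hγT (by rw [hαβ]; exact hne)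
        · exact key β hβ hβT hαβ
    · intro α hα
      exact S.mult_le_of_dim hb hα
    · intro α hα
      by_cases h0 : S.mult α = 0
      · omega
      have he := S.eigenvalue_of_mult (α := α) (by omega)
      have := S.sum_mult_height hp ha hH {α} (by simp [he, hα]) (by simp)
      rw [Finset.sum_singleton] at this
      omega
  have hss := S.ss_of_tate hp hT hs
  refine ⟨hss, ?_, fun h hc => S.commutant hp hT hs h hc⟩
  intro h hh
  have htop : ⨆ α, S.F.eigenspace α = ⊤ := by
    rw [← Module.End.iSup_maxGenEigenspace_eq_top S.F]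
    exact iSup_congr fun α => (hss α).symm
  have hker : (⨆ α, S.F.eigenspace α) ≤ LinearMap.ker (S.F * h - h * S.F) := by
    apply iSup_le
    intro α x hx
    rw [Module.End.mem_eigenspace_iff] at hx
    rw [LinearMap.mem_ker]
    have h1 : (S.F * h - h * S.F) x = S.F (h x) - α • h x := by
      rw [LinearMap.sub_apply, Module.End.mul_apply, Module.End.mul_apply, hx, map_smul]
    have h2 : S.F ((S.F * h - h * S.F) x) = α • (S.F * h - h * S.F) x := by
      have := LinearMap.congr_fun hh x
      rw [Module.End.mul_apply, Module.End.mul_apply, hx, map_smul] at this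
      exact this.symm
    -- `h x` lies in the generalised eigenspace
    have h3 : h x ∈ S.F.maxGenEigenspace α := by
      rw [Module.End.mem_maxGenEigenspace]
      refine ⟨2, ?_⟩
      rw [pow_two]
      change (S.F - α • (1 : Module.End K V)) ((S.F - α • (1 : Module.End K V)) (h x)) = 0
      have e1 : (S.F - α • (1 : Module.End K V)) (h x) = (S.F * h - h * S.F) x := by
        rw [h1, LinearMap.sub_apply]; simp
      rw [e1, LinearMap.sub_apply, h2]; simp
    rw [hss α, Module.End.mem_eigenspace_iff] at h3
    rw [h1, h3, sub_self]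
  rw [htop, top_le_iff, LinearMap.ker_eq_top] at hker
  exact (sub_eq_zero.1 hker).symm

end Pool.Agent.Results.MP_81632f_ag.SurfaceSquares
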